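import Pool.Agent.N822.OG.Stm

/-! # Project OG (helper822), piece PAR (helper82) -/

set_option autoImplicit false

open SimpleGraph Pool.Agent.N822.OG
open scoped Classical

namespace Pool.Agent.N82.OG

lemma f3 : ∀ i : Fin 3, i ≠ i + 1 ∧ i ≠ i + 2 ∧ i + 1 ≠ i + 2 := by decide

lemma nc {V : Type} [Fintype V] (p : V → Prop) [DecidablePred p] :
    {z | p z}.ncard = (Finset.univ.filter p).card := by
  rw [← Set.ncard_coe_finset]
  congr 1
  ext z
  simp

/-- counting nonneighbours -/
lemma count {V : Type} [Fintype V] (G : SimpleGraph V) (U : Finset V) (x : V) :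
    {z | z ∉ U ∧ ¬ G.Adj x z}.ncard + U.card + (G.neighborSet x).ncard =
      Fintype.card V + (U.filter (fun z => G.Adj x z)).card := by
  have h0 : (G.neighborSet x).ncard = (Finset.univ.filter (fun z => G.Adj x z)).card :=
    nc (fun z => G.Adj x z)
  rw [nc, h0]
  have h1 := Finset.card_filter_add_card_filter_not (s := (Finset.univ : Finset V))
    (fun z => z ∈ U)
  have h2 := Finset.card_filter_add_card_filter_not (s := Finset.univ.filter (fun z => z ∉ U))
    (fun z => G.Adj x z)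
  have h3 := Finset.card_filter_add_card_filter_not (s := Finset.univ.filter (fun z => G.Adj x z))
    (fun z => z ∈ U)
  rw [Finset.filter_filter, Finset.filter_filter] at h2 h3
  have e1 : Finset.univ.filter (fun z => z ∈ U) = U := by ext z; simp
  have e2 : Finset.univ.filter (fun z => G.Adj x z ∧ z ∈ U) = U.filter (fun z => G.Adj x z) := by
    ext z; simp [and_comm]
  have e3 : Finset.univ.filter (fun z => G.Adj x z ∧ ¬ z ∈ U) =
      Finset.univ.filter (fun z => z ∉ U ∧ G.Adj x z) := by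
    ext z; simp [and_comm]
  rw [e1, Finset.card_univ] at h1
  rw [e2, e3] at h3
  omega

/-- assembling a configuration -/
lemma mk_conf {V : Type} (G : SimpleGraph V) (t : ℕ) (i j k : Fin 3) (hij : i ≠ j) (hik : i ≠ k)
    (hjk : j ≠ k) (A B C : Finset V) (hA : A.card = t) (hB : B.card = t) (hC : C.card = t)
    (hAB : ∀ x ∈ A, ∀ y ∈ B, G.Adj x y) (hAC : ∀ x ∈ A, ∀ y ∈ C, G.Adj x y)
    (hBC : ∀ x ∈ B, ∀ y ∈ C, G.Adj x y)
    (hp : (∃ a ∈ A, ∃ b ∈ A, ∃ c ∈ A, ∃ d ∈ A,
        a ≠ c ∧ a ≠ d ∧ b ≠ c ∧ b ≠ d ∧ G.Adj a b ∧ G.Adj c d) ∨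
     (∃ a ∈ A, ∃ b ∈ A, ∃ c ∈ A, a ≠ c ∧ G.Adj a b ∧ G.Adj b c)) : Conf G t := by
  have h3 : ∀ l, l = i ∨ l = j ∨ l = k := by
    revert i j k; decide
  let F : Fin 3 → Finset V := fun l => if l = i then A else if l = j then B else C
  have Fi : F i = A := by simp [F]
  have Fj : F j = B := by simp [F, hij.symm]
  have Fk : F k = C := by simp [F, hik.symm, hjk.symm]
  refine ⟨F, ?_, ?_, ?_⟩
  · intro l
    rcases h3 l with rfl | rfl | rfl
    · rw [Fi]; exact hA
    · rw [Fj]; exact hB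
    · rw [Fk]; exact hC
  · intro l l' hll x hx y hy
    rcases h3 l with rfl | rfl | rfl <;> rcases h3 l' with rfl | rfl | rfl
    · exact absurd rfl hll
    · rw [Fi] at hx; rw [Fj] at hy; exact hAB x hx y hy
    · rw [Fi] at hx; rw [Fk] at hy; exact hAC x hx y hy
    · rw [Fj] at hx; rw [Fi] at hy; exact (hAB y hy x hx).symm
    · exact absurd rfl hll
    · rw [Fj] at hx; rw [Fk] at hy; exact hBC x hx y hy
    · rw [Fk] at hx; rw [Fi] at hy; exact (hAC y hy x hx).symm
    · rw [Fk] at hx; rw [Fj] at hy; exact (hBC y hy x hx).symm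
    · exact absurd rfl hll
  · rcases hp with h | h
    · left
      refine ⟨i, ?_⟩
      rw [Fi]
      exact h
    · right; left
      refine ⟨i, ?_⟩
      rw [Fi]
      exact h

theorem par (h1 : S_STR) (h2 : S_SIZ) (h3 : S_GRD) : S_PAR := by
  intro t ht
  obtain ⟨n₁, hn₁⟩ := h1 t (96 * t ^ 2) ht (by nlinarith)
  refine ⟨max n₁ (24 * t * (22 * t + 20)), ?_⟩
  intro V _ G hN hdeg hconf
  set N := Fintype.card V with hNdef
  have hN1 : n₁ ≤ N := (le_max_left _ _).trans hN
  have hN2 : 24 * t * (22 * t + 20) ≤ N := (le_max_right _ _).trans hN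
  obtain ⟨U, hdis, hone, hrest⟩ := hn₁ V G hN1 hdeg hconf
  obtain ⟨hs1, hs2, hs3⟩ := h2 V G (96 * t ^ 2) U (by nlinarith) hdeg hdis hone hrest
  rw [← hNdef] at hs1 hs2 hs3
  have hq : 0 < 96 * t ^ 2 := by positivity
  obtain ⟨u, hu⟩ : ∃ u, u = N / (24 * t) := ⟨_, rfl⟩
  obtain ⟨v, hv⟩ : ∃ v, v = N / (96 * t ^ 2) := ⟨_, rfl⟩
  have hu1 : 22 * t + 20 ≤ u := by
    rw [hu, Nat.le_div_iff_mul_le (by omega)]
    calc (22 * t + 20) * (24 * t) = 24 * t * (22 * t + 20) := by ring
      _ ≤ N := hN2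
  have hu2 : 24 * (t * u) ≤ N := by
    have := Nat.div_mul_le_self N (24 * t)
    rw [← hu] at this
    calc 24 * (t * u) = u * (24 * t) := by ring
      _ ≤ N := this
  have hv1 : 4 * (t * v) ≤ u := by
    rw [hu, Nat.le_div_iff_mul_le (by omega)]
    have := Nat.div_mul_le_self N (96 * t ^ 2)
    rw [← hv] at this
    calc 4 * (t * v) * (24 * t) = v * (96 * t ^ 2) := by ring
      _ ≤ N := this
  have hv2 : N < 96 * t ^ 2 * (v + 1) := by
    have := Nat.lt_div_mul_add (a := N) hq
    rw [← hv] at this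
    calc N < v * (96 * t ^ 2) + 96 * t ^ 2 := this
      _ = 96 * t ^ 2 * (v + 1) := by ring
  have htv : 4 * v ≤ t * v := Nat.mul_le_mul_right v ht
  have htu : 4 * u ≤ t * u := Nat.mul_le_mul_right u ht
  -- sizes
  have hU : ∀ i, N ≤ 3 * (U i).card + 3 * v + 13 := by
    intro i
    have h := hs2 i
    have h' : 96 * t ^ 2 * N ≤ 96 * t ^ 2 * (3 * (U i).card + 3 * v + 13) := by
      calc 96 * t ^ 2 * N ≤ 3 * (96 * t ^ 2) * (U i).card + 3 * N + 10 * (96 * t ^ 2) := h
        _ ≤ 3 * (96 * t ^ 2) * (U i).card + 3 * (96 * t ^ 2 * (v + 1)) + 10 * (96 * t ^ 2) := by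
            omega
        _ = 96 * t ^ 2 * (3 * (U i).card + 3 * v + 13) := by ring
    exact Nat.le_of_mul_le_mul_left h' hq
  have hnn : ∀ i, ∀ y ∈ U i, {z | z ∉ U i ∧ ¬ G.Adj y z}.ncard ≤ v + 5 := by
    intro i y hy
    have h := hs3 i y hy
    by_contra hc
    push Not at hc
    have h' : 96 * t ^ 2 * (v + 6) ≤ 96 * t ^ 2 * {z | z ∉ U i ∧ ¬ G.Adj y z}.ncard :=
      Nat.mul_le_mul_left _ hc
    have h'' : 96 * t ^ 2 * (v + 6) = 96 * t ^ 2 * (v + 1) + 5 * (96 * t ^ 2) := by ring
    omega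
  have fin : ∀ S : Set V, S.Finite := fun S => Set.toFinite S
  -- step 1
  have step1 : ∀ x, (∀ i, x ∉ U i) → ∃ i, ((U i).filter (fun z => G.Adj x z)).card ≤ u := by
    intro x _
    by_contra hc
    push Not at hc
    obtain ⟨A₁, hA₁, hA₁c⟩ := Finset.exists_subset_card_eq
      (show t ≤ ((U 0).filter (fun z => G.Adj x z)).card from by have := hc 0; omega)
    have key : ∀ i j : Fin 3, i ≠ j → ∀ y ∈ U i,
        {z | z ∈ (U j).filter (fun z => G.Adj x z) ∧ ¬ G.Adj y z}.ncard ≤ v + 5 := by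
      intro i j hij y hy
      refine (Set.ncard_le_ncard ?_ (fin _)).trans (hnn i y hy)
      rintro z ⟨hz1, hz2⟩
      refine ⟨fun hz3 => ?_, hz2⟩
      exact (Finset.disjoint_left.1 (hdis i j hij)) hz3 (Finset.mem_filter.1 hz1).1
    obtain ⟨A₂, A₃, hA₂, hA₃, hc2, hc3, h12, h13, h23⟩ := h3 V G t (v + 5) A₁
      ((U 1).filter (fun z => G.Adj x z)) ((U 2).filter (fun z => G.Adj x z)) hA₁c.le
      (fun y hy => key 0 1 (by decide) y (Finset.mem_filter.1 (hA₁ hy)).1)
      (fun y hy => key 0 2 (by decide) y (Finset.mem_filter.1 (hA₁ hy)).1)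
      (fun y hy => key 1 2 (by decide) y (Finset.mem_filter.1 hy).1)
      (by
        have := hc 1
        have e : t * (v + 5) + t = t * v + 6 * t := by ring
        omega)
      (by
        have := hc 2
        have e : 2 * t * (v + 5) + t = 2 * (t * v) + 11 * t := by ring
        omega)
    have hA₁ne : A₁.Nonempty := Finset.card_pos.1 (by omega)
    obtain ⟨w, hw⟩ := hA₁ne
    have hxA : x ∉ A₁ := fun hx => (G.loopless.irrefl x) (Finset.mem_filter.1 (hA₁ hx)).2
    have hBc : (insert x (A₁.erase w)).card = t := by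
      rw [Finset.card_insert_of_notMem (fun h => hxA (Finset.mem_of_mem_erase h)),
        Finset.card_erase_of_mem hw]
      omega
    have h2lt : 1 < (A₁.erase w).card := by
      rw [Finset.card_erase_of_mem hw]; omega
    obtain ⟨b, hb, b', hb', hbb⟩ := Finset.one_lt_card.1 h2lt
    apply hconf
    refine mk_conf G t 0 1 2 (by decide) (by decide) (by decide) (insert x (A₁.erase w)) A₂ A₃
      hBc hc2 hc3 ?_ ?_ h23 (Or.inr ⟨b, Finset.mem_insert_of_mem hb, x,
        Finset.mem_insert_self _ _, b', Finset.mem_insert_of_mem hb', hbb, ?_, ?_⟩)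
    · intro y hy z hz
      rcases Finset.mem_insert.1 hy with rfl | hy
      · exact (Finset.mem_filter.1 (hA₂ hz)).2
      · exact h12 y (Finset.mem_of_mem_erase hy) z hz
    · intro y hy z hz
      rcases Finset.mem_insert.1 hy with rfl | hy
      · exact (Finset.mem_filter.1 (hA₃ hz)).2
      · exact h13 y (Finset.mem_of_mem_erase hy) z hz
    · exact ((Finset.mem_filter.1 (hA₁ (Finset.mem_of_mem_erase hb))).2).symm
    · exact (Finset.mem_filter.1 (hA₁ (Finset.mem_of_mem_erase hb'))).2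
  -- step 2
  have step2 : ∀ x, ∃ i : Fin 3, (∀ j, x ∈ U j → j = i) ∧
      {z | z ∉ U i ∧ ¬ G.Adj x z}.ncard ≤ 2 * u := by
    intro x
    by_cases hx : ∃ i, x ∈ U i
    · obtain ⟨i, hi⟩ := hx
      refine ⟨i, fun j hj => ?_, (hnn i x hi).trans (by omega)⟩
      by_contra hne
      exact (Finset.disjoint_left.1 (hdis j i hne)) hj hi
    · push Not at hx
      obtain ⟨i, hi⟩ := step1 x hx
      refine ⟨i, fun j hj => absurd hj (hx j), ?_⟩
      have hcnt := count G (U i) x
      have hd := hdeg x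
      have hUi := hU i
      rw [← hNdef] at hcnt
      omega
  choose c hc1 hc2 using step2
  refine ⟨c, ?_, ?_⟩
  · intro i a ha b hb a' ha' b' hb' hab ha'b'
    by_contra hcon
    replace ha : c a = i := ha
    replace hb : c b = i := hb
    replace ha' : c a' = i := ha'
    replace hb' : c b' = i := hb'
    obtain ⟨j, hj⟩ : ∃ j : Fin 3, j = i + 1 := ⟨_, rfl⟩
    obtain ⟨k, hk⟩ : ∃ k : Fin 3, k = i + 2 := ⟨_, rfl⟩
    have hij : i ≠ j := by rw [hj]; exact (f3 i).1
    have hik : i ≠ k := by rw [hk]; exact (f3 i).2.1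
    have hjk : j ≠ k := by rw [hj, hk]; exact (f3 i).2.2
    set S : Finset V := {a, b, a', b'} with hS
    have hSc : S.card ≤ t := (Finset.card_le_four).trans ht
    have hScol : ∀ x ∈ S, c x = i := by
      intro x hx
      rw [hS] at hx
      simp only [Finset.mem_insert, Finset.mem_singleton] at hx
      rcases hx with rfl | rfl | rfl | rfl <;> assumption
    have hUt : ∀ l, 4 * (t * u) + t ≤ (U l).card := by
      intro l
      have := hU l
      omega
    obtain ⟨A, hSA, hAS, hAc⟩ := Finset.exists_subsuperset_card_eq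
      (show S ⊆ S ∪ U i from Finset.subset_union_left) hSc
      (le_trans (by have := hUt i; omega) (Finset.card_le_card Finset.subset_union_right))
    have hAcol : ∀ x ∈ A, c x = i := by
      intro x hx
      rcases Finset.mem_union.1 (hAS hx) with h | h
      · exact hScol x h
      · exact (hc1 x i h).symm
    have hmiss : ∀ l m : Fin 3, l ≠ m → ∀ x, c x = l →
        {z | z ∈ U m ∧ ¬ G.Adj x z}.ncard ≤ 2 * u := by
      intro l m hlm x hx
      refine (Set.ncard_le_ncard ?_ (fin _)).trans (hc2 x)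
      rintro z ⟨hz1, hz2⟩
      refine ⟨fun hz3 => ?_, hz2⟩
      rw [hx] at hz3
      exact (Finset.disjoint_left.1 (hdis l m hlm)) hz3 hz1
    obtain ⟨A₂, A₃, hA₂, hA₃, hcc2, hcc3, h12, h13, h23⟩ := h3 V G t (2 * u) A (U j) (U k) hAc.le
      (fun x hx => hmiss i j hij x (hAcol x hx)) (fun x hx => hmiss i k hik x (hAcol x hx))
      (fun y hy => hmiss j k hjk y (hc1 y j hy).symm)
      (by
        have := hUt j
        have e : t * (2 * u) + t = 2 * (t * u) + t := by ring
        omega)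
      (by
        have := hUt k
        have e : 2 * t * (2 * u) + t = 4 * (t * u) + t := by ring
        omega)
    have mem : ∀ x ∈ S, x ∈ A := fun x hx => hSA hx
    have maA : a ∈ A := mem a (by simp [hS])
    have mbA : b ∈ A := mem b (by simp [hS])
    have ma'A : a' ∈ A := mem a' (by simp [hS])
    have mb'A : b' ∈ A := mem b' (by simp [hS])
    apply hconf
    refine mk_conf G t i j k hij hik hjk A A₂ A₃ hAc hcc2 hcc3 h12 h13 h23 ?_
    by_cases e1 : a = a'
    · right
      subst e1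
      exact ⟨b, mbA, a, maA, b', mb'A, fun h => hcon (Or.inl ⟨rfl, h⟩), hab.symm, ha'b'⟩
    by_cases e2 : a = b'
    · right
      subst e2
      exact ⟨b, mbA, a, maA, a', ma'A, fun h => hcon (Or.inr ⟨rfl, h⟩), hab.symm, ha'b'.symm⟩
    by_cases e3 : b = a'
    · right
      subst e3
      exact ⟨a, maA, b, mbA, b', mb'A, e2, hab, ha'b'⟩
    by_cases e4 : b = b'
    · right
      subst e4
      exact ⟨a, maA, b, mbA, a', ma'A, e1, hab, ha'b'.symm⟩
    left
    exact ⟨a, maA, b, mbA, a', ma'A, b', mb'A, e1, e2, e3, e4, hab, ha'b'⟩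
  · intro i
    have h4 : ((U i : Finset V) : Set V) ⊆ {v | c v = i} := by
      intro x hx
      exact (hc1 x i hx).symm
    have h5 := Set.ncard_le_ncard h4 (fin _)
    rw [Set.ncard_coe_finset] at h5
    have := hU i
    omega

end Pool.Agent.N82.OG
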